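import Pool.Agent.Helper15.RA.GoalsH

/-!
# Project RA: the basic exchange lemma
-/

set_option autoImplicit false

namespace Pool.Agent.Helper80.RA

open Pool.Agent.Helper15.RA

section

variable {V W : Type} [Group W] {Γ : SimpleGraph V} {G : V → Subgroup W} {sl : W → ℕ}

theorem genR (hG : GP Γ G sl) (w : W) (hw : w ≠ 1) :
    ∃ v, ∃ b ∈ G v, b ≠ 1 ∧ sl (w * b⁻¹) + 1 = sl w := by
  obtain ⟨v, g, hg, hg1, h⟩ := hG.gen w⁻¹ (inv_ne_one.2 hw)
  refine ⟨v, g⁻¹, (G v).inv_mem hg, inv_ne_one.2 hg1, ?_⟩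
  rw [hG.inv w] at h
  rw [← h, ← hG.inv (w * g⁻¹⁻¹)]
  congr 2
  group

theorem diaR (hG : GP Γ G sl) {u v : V} (huv : u ≠ v) {g h w : W} (hg : g ∈ G u) (hh : h ∈ G v)
    (h1 : sl (w * g) + 1 = sl w) (h2 : sl (w * h) + 1 = sl w) :
    Γ.Adj u v ∧ sl (w * g * h) + 2 = sl w := by
  have e1 : sl (g⁻¹ * w⁻¹) + 1 = sl w⁻¹ := by
    rw [hG.inv w, ← h1, ← hG.inv (w * g), mul_inv_rev]
  have e2 : sl (h⁻¹ * w⁻¹) + 1 = sl w⁻¹ := by
    rw [hG.inv w, ← h2, ← hG.inv (w * h), mul_inv_rev]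
  obtain ⟨h3, h4⟩ := hG.dia u v huv g⁻¹ ((G u).inv_mem hg) h⁻¹ ((G v).inv_mem hh) w⁻¹ e1 e2
  refine ⟨h3, ?_⟩
  rw [hG.inv w] at h4
  rw [← h4, ← hG.inv (w * g * h)]
  congr 2
  group

theorem cosetR (hG : GP Γ G sl) (v : V) (w : W) :
    ∃ g ∈ G v, ∀ h ∈ G v, h ≠ 1 → sl (w * g * h) = sl (w * g) + 1 := by
  obtain ⟨g, hg, h1⟩ := hG.coset v w⁻¹
  refine ⟨g⁻¹, (G v).inv_mem hg, fun h hh hh1 => ?_⟩
  have h2 := h1 h⁻¹ ((G v).inv_mem hh) (inv_ne_one.2 hh1)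
  rw [← hG.inv (w * g⁻¹ * h), ← hG.inv (w * g⁻¹)]
  have e1 : (w * g⁻¹ * h)⁻¹ = h⁻¹ * (g * w⁻¹) := by group
  have e2 : (w * g⁻¹)⁻¹ = g * w⁻¹ := by group
  rw [e1, e2, h2]

theorem syl_le (hG : GP Γ G sl) {v : V} {g : W} (hg : g ∈ G v) : sl g ≤ 1 := by
  by_cases h : g = 1
  · rw [h, hG.one]
    exact Nat.zero_le 1
  · exact (hG.syl v g hg h).le

theorem exch (hG : GP Γ G sl) (u : V) (g : W) (hg : g ∈ G u) (_hg1 : g ≠ 1) :
    ∀ (n : ℕ) (x w : W), sl w = n → sl (x * w) = sl x + sl w → sl (x * w * g) + 1 = sl (x * w) →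
      (∀ h ∈ G u, h ≠ 1 → sl (w * h) = sl w + 1) →
      (∀ h ∈ G u, h * w = w * h) ∧ sl (x * g) + 1 = sl x := by
  intro n
  induction n with
  | zero =>
    intro x w hn hxw hd hnd
    have hw : w = 1 := by
      by_contra hw
      obtain ⟨v, b, hb, hb1, h⟩ := genR hG w hw
      omega
    subst hw
    refine ⟨fun h _ => by rw [mul_one, one_mul], ?_⟩
    rwa [mul_one] at hd
  | succ n ih =>
    intro x w hn hxw hd hnd
    have hw : w ≠ 1 := by
      intro hw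
      rw [hw, hG.one] at hn
      omega
    obtain ⟨v, b, hb, hb1, hbw⟩ := genR hG w hw
    have hvu : v ≠ u := by
      intro he
      rw [he] at hb
      have := hnd b⁻¹ ((G u).inv_mem hb) (inv_ne_one.2 hb1)
      omega
    have hbinv : b⁻¹ ∈ G v := (G v).inv_mem hb
    have hw' : w * b⁻¹ * b = w := by group
    have e1 : sl (x * w * b⁻¹) ≤ sl x + sl (w * b⁻¹) := by
      rw [mul_assoc]
      exact hG.mul _ _
    have e2 : sl (x * w) ≤ sl (x * w * b⁻¹) + 1 := by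
      have h1 := hG.mul (x * w * b⁻¹) b
      have h2 : x * w * b⁻¹ * b = x * w := by group
      rw [h2] at h1
      have := syl_le hG hb
      omega
    have e3 : sl (x * w * b⁻¹) + 1 = sl (x * w) := by omega
    obtain ⟨hadj, e4⟩ := diaR hG hvu hbinv hg e3 hd
    have hcomm : ∀ h ∈ G u, h * b = b * h := fun h hh => hG.comm u v hadj.symm h hh b hb
    have hnd' : ∀ h ∈ G u, h ≠ 1 → sl (w * b⁻¹ * h) = sl (w * b⁻¹) + 1 := by
      obtain ⟨k, hk, hkh⟩ := cosetR hG u (w * b⁻¹)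
      by_cases hk1 : k = 1
      · intro h hh hh1
        have := hkh h hh hh1
        rwa [hk1, mul_one] at this
      · exfalso
        have h1 := hkh k⁻¹ ((G u).inv_mem hk) (inv_ne_one.2 hk1)
        rw [mul_inv_cancel_right] at h1
        have h2 : w * k = w * b⁻¹ * k * b := by
          rw [mul_assoc (w * b⁻¹), hcomm k hk, ← mul_assoc, hw']
        have h3 := hnd k hk hk1
        rw [h2] at h3
        have h4 := hG.mul (w * b⁻¹ * k) b
        have := syl_le hG hb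
        omega
    have e5 : x * (w * b⁻¹) = x * w * b⁻¹ := (mul_assoc _ _ _).symm
    obtain ⟨h1, h2⟩ := ih x (w * b⁻¹) (by omega) (by rw [e5]; omega) (by rw [e5]; omega) hnd'
    refine ⟨fun h hh => ?_, h2⟩
    calc h * w = h * (w * b⁻¹) * b := by rw [mul_assoc, hw']
      _ = w * b⁻¹ * h * b := by rw [h1 h hh]
      _ = w * b⁻¹ * (h * b) := mul_assoc _ _ _
      _ = w * b⁻¹ * b * h := by rw [hcomm h hh, mul_assoc, mul_assoc, mul_assoc]
      _ = w * h := by rw [hw']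

end

theorem h_e0 : E_0 := by
  intro V W _ Γ G sl hG u x w g hg hg1 hxw hd hnd
  obtain ⟨h1, h2⟩ := exch hG u g hg hg1 (sl w) x w rfl hxw hd hnd
  refine ⟨h1, h2, ?_⟩
  intro w₁ k w₂ v hk hk1 hw hsl
  have hks := syl_le hG hk
  -- reduced products
  have r1 : x * w = x * w₁ * k * w₂ := by rw [hw]; group
  have a1 := hG.mul x w₁
  have a2 := hG.mul (x * w₁) k
  have a3 := hG.mul (x * w₁ * k) w₂
  rw [← r1] at a3
  have b1 := hG.mul w₁ k
  have hndw : ∀ h ∈ G u, h ≠ 1 → sl (w₂ * h) = sl w₂ + 1 := by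
    intro h hh hh1
    have c1 := hnd h hh hh1
    have c2 : w * h = w₁ * k * (w₂ * h) := by rw [hw]; group
    rw [c2] at c1
    have c3 := hG.mul (w₁ * k) (w₂ * h)
    have c4 := hG.mul w₂ h
    have c5 := syl_le hG hh
    omega
  obtain ⟨h3, h4⟩ := exch hG u g hg hg1 (sl w₂) (x * w₁ * k) w₂ rfl (by rw [← r1]; omega)
    (by rw [← r1]; exact hd) hndw
  by_cases huv : u = v
  · exfalso
    subst huv
    have c1 := hnd k⁻¹ ((G u).inv_mem hk) (inv_ne_one.2 hk1)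
    have c2 : w * k⁻¹ = w₁ * w₂ := by
      rw [hw, mul_assoc w₁, h3 k hk, ← mul_assoc, mul_inv_cancel_right]
    rw [c2] at c1
    have c3 := hG.mul w₁ w₂
    omega
  · have d1 : sl (x * w₁ * k * k⁻¹) + 1 = sl (x * w₁ * k) := by
      rw [mul_inv_cancel_right]
      omega
    exact (diaR hG huv hg ((G v).inv_mem hk) h4 d1).1

end Pool.Agent.Helper80.RA
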