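import Pool.Agent.Helper15.RA.GoalsH

/-!
# Project RA: `I_M` meets the span of the low `T_w` trivially
-/

set_option autoImplicit false

open LaurentPolynomial

noncomputable section

namespace Pool.Agent.Helper80.RA

open Pool.Agent.Helper15.RA

section

variable {W H : Type} [Ring H] [Algebra ℤ[T;T⁻¹] H]

/-- leading coordinates agree for a triangular change of basis -/
theorem lead (t b : Module.Basis W ℤ[T;T⁻¹] H) (len : W → ℕ) (hb1 : ∀ w, b.repr (t w) w = 1)
    (hb2 : ∀ w y, b.repr (t w) y ≠ 0 → y = w ∨ len y < len w) (Z : H) (w : W)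
    (hmax : ∀ y, t.repr Z y ≠ 0 → len y ≤ len w) : b.repr Z w = t.repr Z w := by
  have h1 : Z = (t.repr Z).sum fun y p => p • t y := (t.linearCombination_repr Z).symm
  conv_lhs => rw [h1]
  rw [Finsupp.sum, map_sum, Finsupp.finsetSum_apply]
  simp only [map_smul, Finsupp.smul_apply, smul_eq_mul]
  rw [Finset.sum_eq_single w]
  · rw [hb1, mul_one]
  · intro y hy hyw
    by_cases h : b.repr (t y) w = 0
    · rw [h, mul_zero]
    · rcases hb2 y w h with h2 | h2
      · exact absurd h2.symm hyw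
      · exact absurd (hmax y (Finsupp.mem_support_iff.1 hy)) (not_le.2 h2)
  · intro h
    rw [Finsupp.notMem_support_iff.1 h, zero_mul]

theorem exists_top (t : Module.Basis W ℤ[T;T⁻¹] H) (len : W → ℕ) (Z : H) (hZ : Z ≠ 0) :
    ∃ w, t.repr Z w ≠ 0 ∧ ∀ y, t.repr Z y ≠ 0 → len y ≤ len w := by
  have h1 : (t.repr Z).support.Nonempty := by
    rw [Finsupp.support_nonempty_iff]
    intro h
    exact hZ (by simpa using h)
  obtain ⟨w, hw, hmax⟩ := Finset.exists_max_image _ len h1
  exact ⟨w, Finsupp.mem_support_iff.1 hw, fun y hy => hmax y (Finsupp.mem_support_iff.2 hy)⟩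

theorem repr_bar (b : Module.Basis W ℤ[T;T⁻¹] H) (bar : H →+* H)
    (hs : ∀ (p : ℤ[T;T⁻¹]) (Z : H), bar (p • Z) = invert p • bar Z) (hb : ∀ w, bar (b w) = b w)
    (Z : H) (w : W) : b.repr (bar Z) w = invert (b.repr Z w) := by
  have h1 : Z = (b.repr Z).sum fun y p => p • b y := (b.linearCombination_repr Z).symm
  conv_lhs => rw [h1]
  rw [Finsupp.sum, map_sum, map_sum, Finsupp.finsetSum_apply]
  simp only [hs, hb, map_smul, Finsupp.smul_apply, smul_eq_mul, Module.Basis.repr_self]
  rw [Finset.sum_eq_single w]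
  · rw [Finsupp.single_eq_same, mul_one]
  · intro y _ hyw
    rw [Finsupp.single_eq_of_ne' hyw, mul_zero]
  · intro h
    rw [Finsupp.notMem_support_iff.1 h, map_zero, zero_mul]

end

theorem h_i3 (h2 : H_2) (h1 : I_1) : I_3 := by
  intro I W V H _ _ _ X M Z hZ
  obtain ⟨-, -, -, hbar, -, -, b, hb, hb1, hb2⟩ := h1 I W V H X
  obtain ⟨hsemi, -⟩ := h2 I W H X.M X.cs X.L X.wt X.D
  have hidl : ∀ Y ∈ X.Idl M, ∀ w, ¬ X.Ge (M + 1) w → b.repr Y w = 0 := by
    intro Y hY w hw
    induction hY using Submodule.span_induction with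
    | mem Y hY =>
      obtain ⟨w', hw', rfl⟩ := hY
      rw [← hb w', Module.Basis.repr_self, Finsupp.single_eq_of_ne']
      rintro rfl
      exact hw hw'
    | zero => rw [map_zero, Finsupp.zero_apply]
    | add Y Y' _ _ ih ih' => rw [map_add, Finsupp.add_apply, ih, ih', add_zero]
    | smul p Y _ ih => rw [map_smul, Finsupp.smul_apply, ih, smul_zero]
  constructor
  · intro hI
    by_contra hne
    obtain ⟨w, hw, hmax⟩ := exists_top X.D.t X.cs.length Z hne
    have h3 := lead X.D.t b X.cs.length hb1 hb2 Z w hmax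
    rw [hidl Z hI w (hZ w hw)] at h3
    exact hw h3.symm
  · intro hdeg hI
    by_contra hne
    obtain ⟨w, hw, hmax⟩ := exists_top X.D.t X.cs.length Z hne
    have h3 := lead X.D.t b X.cs.length hb1 hb2 Z w hmax
    have h4 := hidl _ hI w (hZ w hw)
    have h5 := repr_bar b X.D.bar hsemi (fun w => by rw [hb, hbar]) Z w
    rw [map_sub, Finsupp.sub_apply, h5, h3] at h4
    exact hw (eq_zero_of_invert (hdeg w) (sub_eq_zero.1 h4).symm)

end Pool.Agent.Helper80.RA
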